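import Pool.Agent.H37.CNX.Stmts

/-!
# Row `XCO` of the board `cnx`: the covering data
-/

set_option autoImplicit false

namespace Pool.CND

open Finset Matrix

namespace XCO

section

variable {p : ℕ} {k : Type} [Field k] [CharP k p] {n : ℕ}

theorem xco_sum_comp {R ι : Type} [CommSemiring R] (s : Finset ι) (f : ι → Polynomial R)
    (q : Polynomial R) : (∑ i ∈ s, f i).comp q = ∑ i ∈ s, (f i).comp q :=
  map_sum (Polynomial.compRingHom q) f s

/-- `F_p → k[X]` -/
noncomputable def psi (p : ℕ) (k : Type) [Field k] [CharP k p] : ZMod p →+* Polynomial k :=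
  Polynomial.C.comp (ZMod.castHom (dvd_refl p) k)

theorem mp_mul (S T : Matrix (Fin n) (Fin n) (ZMod p)) : mp k (S * T) = mp k S * mp k T := by
  have : ∀ S : Matrix (Fin n) (Fin n) (ZMod p), mp k S = (psi p k).mapMatrix S := fun _ => rfl
  rw [this, this, this, map_mul]

theorem mp_one : mp k (1 : Matrix (Fin n) (Fin n) (ZMod p)) = 1 := by
  have : ∀ S : Matrix (Fin n) (Fin n) (ZMod p), mp k S = (psi p k).mapMatrix S := fun _ => rfl
  rw [this, map_one]

theorem mv (S : Matrix (Fin n) (Fin n) (ZMod p)) (Y : Fin n → Polynomial k) (i : Fin n) :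
    (mp k S *ᵥ Y) i = ∑ j, psi p k (S i j) * Y j := rfl

theorem psi_mv (S : Matrix (Fin n) (Fin n) (ZMod p)) (v : Fin n → ZMod p) (i : Fin n) :
    psi p k ((S *ᵥ v) i) = ∑ j, psi p k (S i j) * psi p k (v j) := by
  have : (S *ᵥ v) i = ∑ j, S i j * v j := rfl
  rw [this, map_sum]
  exact sum_congr rfl fun j _ => map_mul _ _ _

theorem psi_pow [Fact p.Prime] (a : ZMod p) : psi p k a ^ p = psi p k a := by
  rw [← map_pow, ZMod.pow_card]

theorem psi_comp (a : ZMod p) (q : Polynomial k) : (psi p k a).comp q = psi p k a := by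
  show (Polynomial.C _).comp q = Polynomial.C _
  exact Polynomial.C_comp

theorem mv_frob [Fact p.Prime] (S : Matrix (Fin n) (Fin n) (ZMod p)) (Y : Fin n → Polynomial k)
    (i : Fin n) : ((mp k S *ᵥ Y) i) ^ p = (mp k S *ᵥ fun j => Y j ^ p) i := by
  rw [mv, mv, sum_pow_char]
  exact sum_congr rfl fun j _ => by rw [mul_pow, psi_pow]

theorem mv_comp (S : Matrix (Fin n) (Fin n) (ZMod p)) (Y : Fin n → Polynomial k)
    (q : Polynomial k) (i : Fin n) :
    ((mp k S *ᵥ Y) i).comp q = (mp k S *ᵥ fun j => (Y j).comp q) i := by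
  rw [mv, mv, xco_sum_comp]
  exact sum_congr rfl fun j _ => by rw [Polynomial.mul_comp, psi_comp]

end

end XCO

open XCO in
theorem xco_thm (hXTH : S_XTH) : S_XCO := by
  classical
  intro p k G _ _ _ _ M n φ S ι hp hX
  have : Fact p.Prime := ⟨hp⟩
  obtain ⟨θ, -, -, hθ⟩ := hXTH p k G ι hp inferInstance hX.ι_mul
  set V : Finset k := (Set.finite_range ι).toFinset with hV
  have memV : ∀ v, v ∈ V ↔ ∃ g, ι g = v := by
    intro v
    rw [hV, Set.Finite.mem_toFinset]
    rfl
  have ι_one : ι 1 = 0 := (hX.ι_ker 1).2 M.one_mem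
  have ι_inv : ∀ g, ι g⁻¹ = -ι g := by
    intro g
    have := hX.ι_mul g g⁻¹
    rw [mul_inv_cancel, ι_one] at this
    linear_combination -this
  -- the section
  have hσ : ∀ v, ∃ g : G, v ∈ V → ι g = v := by
    intro v
    by_cases hv : v ∈ V
    · obtain ⟨g, hg⟩ := (memV v).1 hv
      exact ⟨g, fun _ => hg⟩
    · exact ⟨1, fun h => absurd h hv⟩
  choose σ hσ using hσ
  have Vadd : ∀ v g, v ∈ V → v + ι g ∈ V := by
    intro v g hv
    obtain ⟨h, hh⟩ := (memV v).1 hv
    exact (memV _).2 ⟨h * g, by rw [hX.ι_mul, hh]⟩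
  have Vadd' : ∀ v g, v ∈ V ↔ v + ι g ∈ V := by
    intro v g
    refine ⟨Vadd v g, fun h => ?_⟩
    have := Vadd _ g⁻¹ h
    rw [ι_inv] at this
    convert this using 1
    ring
  have Vneg : ∀ v, v ∈ V ↔ -v ∈ V := by
    have : ∀ v, v ∈ V → -v ∈ V := by
      intro v hv
      obtain ⟨h, hh⟩ := (memV v).1 hv
      exact (memV _).2 ⟨h⁻¹, by rw [ι_inv, hh]⟩
    intro v
    refine ⟨this v, fun h => ?_⟩
    have := this _ h
    rwa [neg_neg] at this
  have sumShift : ∀ (f : k → Polynomial k) (g : G), ∑ v ∈ V, f (v + ι g) = ∑ v ∈ V, f v := by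
    intro f g
    exact Finset.sum_equiv (Equiv.addRight (ι g)) (fun v => Vadd' v g) (fun v _ => rfl)
  have sumNeg : ∀ (f : k → Polynomial k), ∑ v ∈ V, f (-v) = ∑ v ∈ V, f v := by
    intro f
    exact Finset.sum_equiv (Equiv.neg k) (fun v => Vneg v) (fun v _ => rfl)
  -- `φ` extended
  set φ' : G → Fin n → ZMod p := fun g => if h : g ∈ M then Multiplicative.toAdd (φ ⟨g, h⟩) else 0
    with hφ'
  have φv : ∀ (g : G) (h : g ∈ M), φ' g = Multiplicative.toAdd (φ ⟨g, h⟩) := by
    intro g h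
    simp only [hφ']
    rw [dif_pos h]
  have φmul : ∀ a b : G, a ∈ M → b ∈ M → φ' (a * b) = φ' a + φ' b := by
    intro a b ha hb
    rw [φv a ha, φv b hb, φv (a * b) (M.mul_mem ha hb), ← toAdd_mul, ← map_mul]
    rfl
  have hconj : ∀ (g a : G), a ∈ M → g * a * g⁻¹ ∈ M ∧ S g *ᵥ φ' (g * a * g⁻¹) = φ' a := by
    intro g a ha
    obtain ⟨a', h1, h2⟩ := hX.conj g ⟨a, ha⟩
    have h1' : (a' : G) = g * a * g⁻¹ := h1
    have hm : g * a * g⁻¹ ∈ M := by
      rw [← h1']
      exact a'.2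
    refine ⟨hm, ?_⟩
    rw [φv a ha, φv _ hm, ← h2]
    have h3 : (⟨g * a * g⁻¹, hm⟩ : M) = a' := Subtype.ext h1'.symm
    rw [h3]
  have S1 : S 1 = 1 := hX.S_one 1 M.one_mem
  have memM : ∀ x y : G, ι x = ι y → x * y⁻¹ ∈ M := by
    intro x y hxy
    rw [← hX.ι_ker, hX.ι_mul, ι_inv, hxy]
    ring
  have Sι : ∀ x y : G, ι x = ι y → S x = S y := by
    intro x y hxy
    have h1 : x = (x * y⁻¹) * y := by group
    rw [h1, hX.S_mul, hX.S_one _ (memM x y hxy), mul_one]
  have Sinv : ∀ g : G, S g * S g⁻¹ = 1 ∧ S g⁻¹ * S g = 1 := by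
    intro g
    rw [← hX.S_mul, ← hX.S_mul, mul_inv_cancel, inv_mul_cancel, S1]
    exact ⟨rfl, rfl⟩
  -- the cocycle
  set c : k → G → Fin n → ZMod p := fun u g =>
    S (σ (u + ι g)) *ᵥ φ' (σ u * g * (σ (u + ι g))⁻¹) with hc
  have aM : ∀ u g, u ∈ V → σ u * g * (σ (u + ι g))⁻¹ ∈ M := by
    intro u g hu
    apply memM
    rw [hX.ι_mul, hσ u hu, hσ _ (Vadd u g hu)]
  have c_mul : ∀ u g h, u ∈ V → c u (g * h) = S h *ᵥ c u g + c (u + ι g) h := by
    intro u g h hu
    simp only [hc]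
    have e1 : u + ι (g * h) = u + ι g + ι h := by rw [hX.ι_mul]; ring
    rw [e1]
    have m1 := aM u g hu
    have m2 := aM (u + ι g) h (Vadd u g hu)
    have e2 : σ u * (g * h) * (σ (u + ι g + ι h))⁻¹ =
        (σ u * g * (σ (u + ι g))⁻¹) * (σ (u + ι g) * h * (σ (u + ι g + ι h))⁻¹) := by group
    rw [e2, φmul _ _ m1 m2, Matrix.mulVec_add]
    congr 1
    rw [Matrix.mulVec_mulVec, ← hX.S_mul]
    congr 1
    apply Sι
    rw [hX.ι_mul, hσ _ (Vadd u g hu), hσ _ (Vadd _ h (Vadd u g hu))]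
  have c_M : ∀ u a, u ∈ V → a ∈ M → c u a = φ' a := by
    intro u a hu ha
    simp only [hc]
    rw [(hX.ι_ker a).2 ha, add_zero]
    exact (hconj (σ u) a ha).2
  -- `C`
  set C : G → Fin n → Polynomial k := fun g i =>
    ∑ u ∈ V, θ.comp (Polynomial.X - Polynomial.C u) * psi p k (c u g i) with hC
  have θsum : ∑ u ∈ V, θ.comp (Polynomial.X - Polynomial.C u) = 1 := by
    rw [← hθ, ← sumNeg (fun v => θ.comp (Polynomial.X + Polynomial.C v))]
    refine sum_congr rfl fun u _ => ?_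
    rw [map_neg, sub_eq_add_neg]
  have C_M : ∀ (a : G) (ha : a ∈ M) i, C a i = psi p k (φ' a i) := by
    intro a ha i
    simp only [hC]
    rw [← one_mul (psi p k (φ' a i)), ← θsum, sum_mul]
    refine sum_congr rfl fun u hu => ?_
    rw [c_M u a hu ha]
  have C_sh : ∀ g h i, (C h i).comp (Polynomial.X + Polynomial.C (ι g)) =
      ∑ u ∈ V, θ.comp (Polynomial.X - Polynomial.C u) * psi p k (c (u + ι g) h i) := by
    intro g h i
    simp only [hC]
    rw [xco_sum_comp, ← sumShift _ g]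
    refine sum_congr rfl fun u _ => ?_
    rw [Polynomial.mul_comp, psi_comp, Polynomial.comp_assoc]
    congr 2
    rw [Polynomial.sub_comp, Polynomial.X_comp, Polynomial.C_comp, map_add]
    ring
  have C_mul : ∀ g h i, C (g * h) i = (mp k (S h) *ᵥ C g) i +
      (C h i).comp (Polynomial.X + Polynomial.C (ι g)) := by
    intro g h i
    rw [C_sh, mv]
    simp only [hC]
    simp_rw [mul_sum]
    rw [sum_comm, ← sum_add_distrib]
    refine sum_congr rfl fun u hu => ?_
    rw [c_mul u g h hu, Pi.add_apply, map_add, mul_add, psi_mv, mul_sum]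
    congr 1
    exact sum_congr rfl fun j _ => by ring
  -- `E`
  set E : G → Fin n → Polynomial k := fun g i => C g i ^ p - C g i with hE
  have E_mul : ∀ g h i, E (g * h) i = (mp k (S h) *ᵥ E g) i +
      (E h i).comp (Polynomial.X + Polynomial.C (ι g)) := by
    intro g h i
    have e1 : (mp k (S h) *ᵥ E g) i = ((mp k (S h) *ᵥ C g) i) ^ p - (mp k (S h) *ᵥ C g) i := by
      rw [mv_frob, mv, mv, mv, ← sum_sub_distrib]
      refine sum_congr rfl fun j _ => ?_
      simp only [hE]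
      ring
    rw [e1]
    simp only [hE]
    rw [C_mul, add_pow_char, Polynomial.sub_comp, Polynomial.pow_comp]
    ring
  have E_M : ∀ a ∈ M, ∀ i, E a i = 0 := by
    intro a ha i
    simp only [hE]
    rw [C_M a ha, psi_pow, sub_self]
  have Eι : ∀ x y : G, ι x = ι y → E x = E y := by
    intro x y hxy
    funext i
    have h1 : x = (x * y⁻¹) * y := by group
    have hm := memM x y hxy
    rw [h1, E_mul, (hX.ι_ker _).2 hm, map_zero, add_zero, Polynomial.comp_X]
    have : E (x * y⁻¹) = 0 := by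
      funext j
      exact E_M _ hm j
    rw [this, Matrix.mulVec_zero, Pi.zero_apply, zero_add]
  set F : Fin n → Polynomial k := fun i =>
    -∑ v ∈ V, θ.comp (Polynomial.X + Polynomial.C v) * (mp k (S (σ v)⁻¹) *ᵥ E (σ v)) i with hF
  refine ⟨C, F, ?_, ?_, ?_⟩
  · intro a
    funext i
    rw [C_M a a.2, φv a a.2]
    rfl
  · intro g h
    funext i
    exact C_mul g h i
  · intro g
    funext i
    rw [Pi.add_apply]
    show (F i).comp (Polynomial.X + Polynomial.C (ι g)) = (mp k (S g) *ᵥ F) i + E g i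
    have key : ∀ v ∈ V, ((mp k (S (σ v)⁻¹) *ᵥ E (σ v)) i).comp
        (Polynomial.X + Polynomial.C (ι g)) =
        (mp k (S g) *ᵥ (mp k (S (σ (v + ι g))⁻¹) *ᵥ E (σ (v + ι g)))) i - E g i := by
      intro v hv
      have hvg : ι (σ (v + ι g)) = ι (g * σ v) := by
        rw [hX.ι_mul, hσ v hv, hσ _ (Vadd v g hv)]
        ring
      rw [mv_comp]
      have e1 : (fun j => (E (σ v) j).comp (Polynomial.X + Polynomial.C (ι g))) =
          E (g * σ v) - mp k (S (σ v)) *ᵥ E g := by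
        funext j
        rw [Pi.sub_apply, E_mul]
        ring
      rw [e1, Matrix.mulVec_sub, Matrix.mulVec_mulVec, Matrix.mulVec_mulVec, ← mp_mul, ← mp_mul,
        (Sinv (σ v)).2, mp_one, Matrix.one_mulVec, Pi.sub_apply]
      have e2 : S g * S (σ (v + ι g))⁻¹ = S (σ v)⁻¹ := by
        have e3 : S (σ (v + ι g))⁻¹ = S (g * σ v)⁻¹ := by
          apply Sι
          rw [ι_inv, ι_inv, hvg]
        rw [e3, _root_.mul_inv_rev, hX.S_mul, ← mul_assoc, (Sinv g).1, one_mul]
      rw [e2, Eι _ _ hvg]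
    have e4 : (F i).comp (Polynomial.X + Polynomial.C (ι g)) =
        -∑ v ∈ V, θ.comp (Polynomial.X + Polynomial.C (v + ι g)) *
          ((mp k (S g) *ᵥ (mp k (S (σ (v + ι g))⁻¹) *ᵥ E (σ (v + ι g)))) i - E g i) := by
      simp only [hF]
      rw [Polynomial.neg_comp, xco_sum_comp]
      congr 1
      refine sum_congr rfl fun v hv => ?_
      rw [Polynomial.mul_comp, key v hv, Polynomial.comp_assoc]
      congr 2
      rw [Polynomial.add_comp, Polynomial.X_comp, Polynomial.C_comp, map_add]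
      ring
    rw [e4, sumShift (fun v => θ.comp (Polynomial.X + Polynomial.C v) *
      ((mp k (S g) *ᵥ (mp k (S (σ v)⁻¹) *ᵥ E (σ v))) i - E g i)) g]
    simp_rw [mul_sub]
    rw [sum_sub_distrib, ← sum_mul, hθ, one_mul]
    have e5 : (mp k (S g) *ᵥ F) i = -∑ v ∈ V, θ.comp (Polynomial.X + Polynomial.C v) *
        (mp k (S g) *ᵥ (mp k (S (σ v)⁻¹) *ᵥ E (σ v))) i := by
      rw [mv]
      simp only [hF]
      simp_rw [mul_neg, sum_neg_distrib, mul_sum]
      rw [sum_comm]
      congr 1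
      refine sum_congr rfl fun v _ => ?_
      rw [mv, mul_sum]
      exact sum_congr rfl fun j _ => by ring
    rw [e5]
    ring

end Pool.CND
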